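import Pool.Agent.H.MP_6a29fd_al.C

namespace Pool.Agent.Results.MP_6a29fd_al.Osc

open Pool.Agent.H.MP_6a29fd_al Filter

/-- A finitely generated group, a finite symmetric generating set and a word for which the
probability that independent lazy random walks satisfy the word does not converge. -/
theorem result : ∃ (G : Type) (_ : Group G) (S : Finset G) (d : ℕ) (w : FreeGroup (Fin d)),
    1 ≤ d ∧ (∀ s ∈ S, s⁻¹ ∈ S) ∧ Subgroup.closure (S : Set G) = ⊤ ∧ S.Nonempty ∧
    limsup (prob S w) atTop ≠ liminf (prob S w) atTop :=
  main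

end Pool.Agent.Results.MP_6a29fd_al.Osc
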